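import Pool.Agent.Work.MP_c51bc2_nt_lb.All

/-!
# MP_c51bc2: the positive and negative parts of Hardy's function balance on every level of `|Z|`

For all `0 ≤ a < b`, `|∫_{t ∈ [T, T+H], a < |Z| ≤ b} Z| ≤ C (log log T)^{-1/10} ∫_T^{T+H} |Z|`,
`T^{1/2+ε} ≤ H ≤ T`, and `|∫_T^{T+H} Z F(log|Z|)| ≤ C κ^{1/2} ∫_T^{T+H} |Z|` for all `F` bounded by
`1` with Lipschitz constant `κ ≥ (log T)^{-1/2}`.
-/

set_option autoImplicit false

namespace Pool.Agent.Results.MP_c51bc2_nt.LevelBalance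

open Complex MeasureTheory

/-- Hardy's function `Z(t) = π^{-it/2} Γ(1/4+it/2)/|Γ(1/4+it/2)| ζ(1/2+it)` is real, and for every
`ε > 0` there are constants `C, T₀` such that for all `T ≥ T₀`, `T^{1/2+ε} ≤ H ≤ T`: (1) for all
`0 ≤ a < b` the integral of `Z` over the set of the `t ∈ [T, T+H]` with `a < |Z(t)| ≤ b` is in modulus
at most `C (log log T)^{-1/10}` times the integral of `|Z|` over `[T, T+H]`; (2) for every
`κ ∈ [(log T)^{-1/2}, 1]` and every `F : ℝ → ℝ` with `|F| ≤ 1` and Lipschitz constant `κ`,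
`|∫_T^{T+H} Z F(log|Z|)| ≤ C κ^{1/2} ∫_T^{T+H} |Z|` (`log 0 = 0`). -/
theorem result :
    ∃ Z : ℝ → ℝ,
      (∀ t : ℝ, (Z t : ℂ) =
        (Real.pi : ℂ) ^ (-(I * t / 2)) * Complex.Gamma (1 / 4 + I * t / 2) /
          (‖Complex.Gamma (1 / 4 + I * t / 2)‖ : ℂ) * riemannZeta (1 / 2 + I * t)) ∧
      ∀ ε : ℝ, 0 < ε → ∃ C T₀ : ℝ, 0 < C ∧ 1 < T₀ ∧
        ∀ T H : ℝ, T₀ ≤ T → T ^ (1 / 2 + ε) ≤ H → H ≤ T →
          (∀ a b : ℝ, 0 ≤ a → a < b →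
            |∫ t in {t : ℝ | t ∈ Set.Icc T (T + H) ∧ a < |Z t| ∧ |Z t| ≤ b}, Z t| ≤
              C * Real.log (Real.log T) ^ (-(1 / 10) : ℝ) * ∫ t in T..(T + H), |Z t|) ∧
          ∀ (κ : ℝ) (F : ℝ → ℝ), Real.log T ^ (-(1 / 2) : ℝ) ≤ κ → κ ≤ 1 →
            (∀ x, |F x| ≤ 1) → (∀ x y, |F x - F y| ≤ κ * |x - y|) →
            |∫ t in T..(T + H), Z t * F (Real.log |Z t|)| ≤
              C * κ ^ (1 / 2 : ℝ) * ∫ t in T..(T + H), |Z t| :=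
  HZS.finlb HZS.stmt_RZ HZS.alls_ZC HZS.lb_LEV HZS.lb_BLA

end Pool.Agent.Results.MP_c51bc2_nt.LevelBalance
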