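import Pool.Agent.Work.MP_c51bc2_nt_pb.All

/-!
# MP_c51bc2: the signed parts of Hardy's function balance on every arc of its phase

For `α ≤ β ≤ α + 2π` let `E` be the set of the `t ∈ [T, 2T]` such that `e^{iθ(t)}` lies on the open
arc from `e^{iα}` to `e^{iβ}`. Then `∫_E Z = (sin β - sin α) T / π + O(T^{3/4} log T)`, while the
positive and the negative part of `∫_E Z` are both `≫ T (log T)^{1/4}` when `β - α ≥ η`.
-/

set_option autoImplicit false

namespace Pool.Agent.Results.MP_c51bc2_nt.PhaseBalance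

open Complex MeasureTheory

/-- Hardy's function `Z(t) = e^{iθ(t)} ζ(1/2+it)`, `e^{iθ(t)} = π^{-it/2} Γ(1/4+it/2)/|Γ(1/4+it/2)|`,
is real, and, with `E` the set of the `t ∈ [T, 2T]` such that `e^{iθ(t)} = e^{iφ}` for some `φ` in
the open interval `(α, β)`: (1) there are `C, T₀` such that for all `T ≥ T₀` and all
`α ≤ β ≤ α + 2π` the sum of the integrals of `max(Z,0)` and of `min(Z,0)` over `E` differs from
`(sin β - sin α) T / π` by at most `C T^{3/4} log T`; (2) for every `η > 0` there are `c, T₀ > 0`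
such that for all `T ≥ T₀` and all `β ≥ α + η` both the integral of `max(Z,0)` and that of
`-min(Z,0)` over `E` are at least `c T (log T)^{1/4}`. -/
theorem result :
    ∃ Z : ℝ → ℝ,
      (∀ t : ℝ, (Z t : ℂ) =
        (Real.pi : ℂ) ^ (-(I * t / 2)) * Complex.Gamma (1 / 4 + I * t / 2) /
          (‖Complex.Gamma (1 / 4 + I * t / 2)‖ : ℂ) * riemannZeta (1 / 2 + I * t)) ∧
      (∃ C T₀ : ℝ, 0 < C ∧ 1 < T₀ ∧
        ∀ T α β : ℝ, T₀ ≤ T → α ≤ β → β ≤ α + 2 * Real.pi → ∀ E : Set ℝ,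
          E = {t : ℝ | t ∈ Set.Icc T (2 * T) ∧ ∃ φ ∈ Set.Ioo α β, cexp (I * (φ : ℂ)) =
            (Real.pi : ℂ) ^ (-(I * t / 2)) * Complex.Gamma (1 / 4 + I * t / 2) /
              (‖Complex.Gamma (1 / 4 + I * t / 2)‖ : ℂ)} →
          |(∫ t in E, max (Z t) 0) + (∫ t in E, min (Z t) 0) -
            (Real.sin β - Real.sin α) / Real.pi * T| ≤ C * T ^ (3 / 4 : ℝ) * Real.log T) ∧
      ∀ η : ℝ, 0 < η → ∃ c T₀ : ℝ, 0 < c ∧ 1 < T₀ ∧
        ∀ T α β : ℝ, T₀ ≤ T → α + η ≤ β → ∀ E : Set ℝ,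
          E = {t : ℝ | t ∈ Set.Icc T (2 * T) ∧ ∃ φ ∈ Set.Ioo α β, cexp (I * (φ : ℂ)) =
            (Real.pi : ℂ) ^ (-(I * t / 2)) * Complex.Gamma (1 / 4 + I * t / 2) /
              (‖Complex.Gamma (1 / 4 + I * t / 2)‖ : ℂ)} →
          c * T * Real.log T ^ (1 / 4 : ℝ) ≤ ∫ t in E, max (Z t) 0 ∧
          c * T * Real.log T ^ (1 / 4 : ℝ) ≤ -∫ t in E, min (Z t) 0 :=
  HZP.final_PB

end Pool.Agent.Results.MP_c51bc2_nt.PhaseBalance
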