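import Pool.Agent.Work.MP_c51bc2_nt_ub.All

/-!
# MP_c51bc2: the signed parts of Hardy's function balance against every short Dirichlet polynomial

For `A(t) = ∑_{n ≤ N} a_n n^{-it}` let `P`, `M` be the integrals of `max(Z,0) |A|²` and
`min(Z,0) |A|²` over `[T, 2T]`. Then `|P + M| ≤ C N T^{-1/4+ε} (P - M)`, and for
`N ≤ T^{1/4-ε}` both `P` and `-M` are at least `c T^{1-ε} ∑ |a_n|²`.
-/

set_option autoImplicit false

namespace Pool.Agent.Results.MP_c51bc2_nt.UniversalBalance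

open Complex MeasureTheory

/-- Hardy's function `Z(t) = π^{-it/2} Γ(1/4+it/2)/|Γ(1/4+it/2)| ζ(1/2+it)` is real, and for every
`ε > 0` there are constants `C, T₀` such that for all `T ≥ T₀`, `N ≥ 1` and all complex `a_n`, with
`P`, `M` the integrals over `[T, 2T]` of `max(Z,0) |∑_{n ≤ N} a_n n^{-it}|²` and
`min(Z,0) |∑_{n ≤ N} a_n n^{-it}|²`: (1) `|P + M| ≤ C N T^{-1/4+ε} (P - M)`; (2) if
`N ≤ T^{1/4-ε}` then `T^{1-ε} ∑ |a_n|²` is at most `C P` and at most `-C M`. -/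
theorem result :
    ∃ Z : ℝ → ℝ,
      (∀ t : ℝ, (Z t : ℂ) =
        (Real.pi : ℂ) ^ (-(I * t / 2)) * Complex.Gamma (1 / 4 + I * t / 2) /
          (‖Complex.Gamma (1 / 4 + I * t / 2)‖ : ℂ) * riemannZeta (1 / 2 + I * t)) ∧
      ∀ ε : ℝ, 0 < ε → ∃ C T₀ : ℝ, 0 < C ∧ 1 < T₀ ∧
        ∀ (T : ℝ) (N : ℕ) (a : ℕ → ℂ), T₀ ≤ T → 1 ≤ N → ∀ P M : ℝ,
          P = ∫ t in T..(2 * T),
            max (Z t) 0 * ‖∑ n ∈ Finset.Icc 1 N, a n * (n : ℂ) ^ (-(I * (t : ℂ)))‖ ^ 2 →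
          M = ∫ t in T..(2 * T),
            min (Z t) 0 * ‖∑ n ∈ Finset.Icc 1 N, a n * (n : ℂ) ^ (-(I * (t : ℂ)))‖ ^ 2 →
          |P + M| ≤ C * (N : ℝ) * T ^ (-(1 / 4) + ε) * (P - M) ∧
          ((N : ℝ) ≤ T ^ (1 / 4 - ε) →
            T ^ (1 - ε) * ∑ n ∈ Finset.Icc 1 N, ‖a n‖ ^ 2 ≤ C * P ∧
            T ^ (1 - ε) * ∑ n ∈ Finset.Icc 1 N, ‖a n‖ ^ 2 ≤ C * -M) :=
  HZU.final_UB

end Pool.Agent.Results.MP_c51bc2_nt.UniversalBalance
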