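import Pool.Agent.Work.MP_c51bc2_nt_s.All

/-!
# MP_c51bc2: the positive and negative parts of Hardy's function balance in short windows

With `I₊(t,h)`, `I₋(t,h)` the integrals of `max(Z,0)`, `min(Z,0)` over `[t, t+h]`,
`∫_T^{T+H} |I₊(t,h) + I₋(t,h)| dt ≤ C (h log T)^{-1/4} ∫_T^{T+H} (I₊(t,h) - I₋(t,h)) dt`
for `W₀ / log T ≤ h ≤ 1/5` and `T^{1/2+ε} ≤ H ≤ T`, and the mass of `|Z|` lies close to the sign
changes of `Z`.
-/

set_option autoImplicit false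

namespace Pool.Agent.Results.MP_c51bc2_nt.WindowBalance

open Complex MeasureTheory

/-- Hardy's function `Z(t) = π^{-it/2} Γ(1/4+it/2)/|Γ(1/4+it/2)| ζ(1/2+it)` is real, and for every
`ε > 0` there are constants `C, T₀, W₀` such that for all `T ≥ T₀`, `T^{1/2+ε} ≤ H ≤ T` and
`W₀ / log T ≤ h ≤ 1/5`: (1) the integral over `t ∈ [T, T+H]` of
`|∫_t^{t+h} max(Z,0) + ∫_t^{t+h} min(Z,0)|` is at most `C (h log T)^{-1/4}` times the integral over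
`t ∈ [T, T+H]` of `∫_t^{t+h} max(Z,0) - ∫_t^{t+h} min(Z,0)`; (2) the integral of `|Z|` over the set
of the `u ∈ [T, T+H]` such that `Z ≥ 0` on all of `(u-h, u+h)` or `Z ≤ 0` on all of `(u-h, u+h)` is
at most `C (h log T)^{-1/4}` times the integral of `|Z|` over `[T, T+H]`. -/
theorem result :
    ∃ Z : ℝ → ℝ,
      (∀ t : ℝ, (Z t : ℂ) =
        (Real.pi : ℂ) ^ (-(I * t / 2)) * Complex.Gamma (1 / 4 + I * t / 2) /
          (‖Complex.Gamma (1 / 4 + I * t / 2)‖ : ℂ) * riemannZeta (1 / 2 + I * t)) ∧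
      ∀ ε : ℝ, 0 < ε → ∃ C T₀ W₀ : ℝ, 0 < C ∧ 1 < T₀ ∧ 0 < W₀ ∧
        ∀ T H h : ℝ, T₀ ≤ T → T ^ (1 / 2 + ε) ≤ H → H ≤ T → W₀ / Real.log T ≤ h → h ≤ 1 / 5 →
          (∫ t in T..(T + H), |(∫ u in t..(t + h), max (Z u) 0) + ∫ u in t..(t + h), min (Z u) 0| ≤
            C * (h * Real.log T) ^ (-(1 / 4) : ℝ) * ∫ t in T..(T + H),
              ((∫ u in t..(t + h), max (Z u) 0) - ∫ u in t..(t + h), min (Z u) 0)) ∧
          (∫ t in {u : ℝ | u ∈ Set.Icc T (T + H) ∧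
              ((∀ x : ℝ, |x - u| < h → 0 ≤ Z x) ∨ (∀ x : ℝ, |x - u| < h → Z x ≤ 0))}, |Z t| ≤
            C * (h * Real.log T) ^ (-(1 / 4) : ℝ) * ∫ t in T..(T + H), |Z t|) :=
  HZS.fins HZS.stmt_RZ HZS.alls_FINC HZS.alls_FIND

end Pool.Agent.Results.MP_c51bc2_nt.WindowBalance
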